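import Mathlib

/-!
# Squeezed complexes: definitions

Monomials in `x_1, …, x_m` are multisets of indices, and a simplicial complex with vertices in `ℕ`
is given by its set of faces.
-/

namespace Pool.Agent.Lib.MP_7f3eea_co

/-- `U` is a shifted order ideal in the variables `x_1, …, x_m`.  A monomial `x_{i_1} ⋯ x_{i_s}` is
the multiset `{i_1, …, i_s}`; `v ≤ u` means that `v` divides `u`; `i ::ₘ u` is `x_i u`. -/
structure IsShiftedOrderIdeal (m : ℕ) (U : Finset (Multiset ℕ)) : Prop where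
  index_mem : ∀ u ∈ U, ∀ i ∈ u, 1 ≤ i ∧ i ≤ m
  divisor_mem : ∀ u ∈ U, ∀ v, v ≤ u → v ∈ U
  one_mem : (0 : Multiset ℕ) ∈ U
  var_mem : ∀ i, 1 ≤ i → i ≤ m → ({i} : Multiset ℕ) ∈ U
  shift_mem : ∀ (i j : ℕ) (u : Multiset ℕ), i ::ₘ u ∈ U → i < j → j ≤ m → j ::ₘ u ∈ U

/-- The largest degree of a monomial in `U`. -/
def dmax (U : Finset (Multiset ℕ)) : ℕ := U.sup Multiset.card

/-- The index `i_k` (for `1 ≤ k ≤ s`) of the monomial `u = x_{i_1} ⋯ x_{i_s}`, where
`i_1 ≤ ⋯ ≤ i_s`. -/
def idx (u : Multiset ℕ) (k : ℕ) : ℕ := (u.sort (· ≤ ·)).getD (k - 1) 0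

/-- The set `F_t(u)`, for the parameters `m` and `d = d_max(U)`. -/
def facet (m t d : ℕ) (u : Multiset ℕ) : Finset ℕ :=
  if u.card ≤ t then
    ((Finset.Icc 1 u.card).biUnion fun k => {idx u k + 2 * k - 2, idx u k + 2 * k - 1}) ∪
      Finset.Icc (m + 2 * u.card + 1) (m + t + d)
  else
    ((Finset.Icc 1 t).biUnion fun k => {idx u k + 2 * k - 2, idx u k + 2 * k - 1}) ∪
      ((Finset.Icc (t + 1) u.card).image fun k => idx u k + k + t - 1) ∪
      Finset.Icc (m + t + u.card + 1) (m + t + d)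

/-- The squeezed complex `Δ_t(U)`, given by its set of faces. -/
def squeezed (m t : ℕ) (U : Finset (Multiset ℕ)) : Set (Finset ℕ) :=
  {σ | ∃ u ∈ U, σ ⊆ facet m t (dmax U) u}

/-- A facet of a simplicial complex is an inclusion-maximal face. -/
def IsFacet (K : Set (Finset ℕ)) (F : Finset ℕ) : Prop :=
  F ∈ K ∧ ∀ G ∈ K, F ⊆ G → G = F

/-- The boundary: the subcomplex generated by the faces of codimension one that are contained in
exactly one facet. -/
def boundary (K : Set (Finset ℕ)) : Set (Finset ℕ) :=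
  {σ | ∃ R F, σ ⊆ R ∧ IsFacet K F ∧ R ⊆ F ∧ R.card + 1 = F.card ∧
    ∀ G, IsFacet K G → R ⊆ G → G = F}

/-- The geometric realization of a finite simplicial complex with vertices in `ℕ`, as a set of
barycentric coordinate vectors. -/
def realization (K : Set (Finset ℕ)) : Set (ℕ → ℝ) :=
  {x | (∀ i, 0 ≤ x i) ∧ ∃ σ ∈ K, (∀ i, i ∉ σ → x i = 0) ∧ ∑ i ∈ σ, x i = 1}

/-- A simplicial complex is a ball if its geometric realization is homeomorphic to a closed
Euclidean ball. -/
def IsBall (K : Set (Finset ℕ)) : Prop :=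
  ∃ n : ℕ, Nonempty (realization K ≃ₜ Metric.closedBall (0 : EuclideanSpace ℝ (Fin n)) 1)

/-- Simplicial isomorphism: a map of vertices, injective on the vertices of `K`, which carries the
faces of `K` exactly to the faces of `L`. -/
def Isomorphic (K L : Set (Finset ℕ)) : Prop :=
  ∃ f : ℕ → ℕ, Set.InjOn f {v | ({v} : Finset ℕ) ∈ K} ∧
    (fun σ : Finset ℕ => σ.image f) '' K = L

/-- Kalai squeezed spheres: complexes isomorphic to `∂Δ_t(V)` for a shifted order ideal `V` in any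
number `m` of variables and some `t ≥ d_max(V)`. -/
def IsKalaiSqueezedSphere (K : Set (Finset ℕ)) : Prop :=
  ∃ (m t : ℕ) (V : Finset (Multiset ℕ)), IsShiftedOrderIdeal m V ∧ dmax V ≤ t ∧
    Isomorphic K (boundary (squeezed m t V))

end Pool.Agent.Lib.MP_7f3eea_co
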