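import Mathlib
import Pool.Agent.Lib.MP_7f3eea_co.Defs

/-!
# The boundary of a squeezed ball of positive index need not be a Kalai squeezed sphere
-/

namespace Pool.Agent.Lib.MP_7f3eea_co

/-! ### Explicit facets -/

lemma facet_zero (m t d : ℕ) : facet m t d 0 = Finset.Icc (m + 1) (m + t + d) := by
  simp [facet]

lemma facet_single (m t d i : ℕ) (ht : 1 ≤ t) :
    facet m t d {i} = {i, i + 1} ∪ Finset.Icc (m + 3) (m + t + d) := by
  have h1 : (({i} : Multiset ℕ)).card = 1 := rfl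
  rw [facet, if_pos (by rw [h1]; exact ht), h1]
  simp [idx, Multiset.sort_singleton]

lemma sort_pair (i j : ℕ) (hij : i ≤ j) :
    Multiset.sort ({i, j} : Multiset ℕ) (· ≤ ·) = [i, j] := by
  have h := Multiset.sort_cons i {j} (· ≤ ·) (by simpa using hij)
  rw [Multiset.sort_singleton] at h
  exact h

lemma facet_pair (m t d i j : ℕ) (ht : 2 ≤ t) (hij : i ≤ j) :
    facet m t d {i, j} = {i, i + 1, j + 2, j + 3} ∪ Finset.Icc (m + 5) (m + t + d) := by
  have h1 : (({i, j} : Multiset ℕ)).card = 2 := rfl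
  rw [facet, if_pos (by rw [h1]; exact ht), h1]
  have h2 : Finset.Icc 1 2 = ({1, 2} : Finset ℕ) := rfl
  have e1 : idx {i, j} 1 = i := by rw [idx, sort_pair i j hij]; rfl
  have e2 : idx {i, j} 2 = j := by rw [idx, sort_pair i j hij]; rfl
  rw [h2, Finset.biUnion_insert, Finset.singleton_biUnion, e1, e2]
  ext x
  simp only [Finset.mem_union, Finset.mem_insert, Finset.mem_singleton, Finset.mem_Icc]
  omega

/-! ### The example -/

/-- The shifted order ideal `{1, x_1, x_2, x_3, x_3^2, x_3^3}`. -/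
def U₀ : Finset (Multiset ℕ) := {0, {1}, {2}, {3}, {3, 3}, {3, 3, 3}}

lemma mem_U₀ (u : Multiset ℕ) :
    u ∈ U₀ ↔ u = 0 ∨ u = {1} ∨ u = {2} ∨ u = {3} ∨ u = {3, 3} ∨ u = {3, 3, 3} := by
  simp [U₀]

lemma U₀_shifted : IsShiftedOrderIdeal 3 U₀ := by
  refine ⟨?_, ?_, ?_, ?_, ?_⟩
  · decide
  · intro u hu v hv
    have h : ∀ u ∈ U₀, ∀ v ∈ u.powerset, v ∈ U₀ := by decide
    exact h u hu v (Multiset.mem_powerset.mpr hv)
  · decide
  · intro i h1 h2
    interval_cases i <;> decide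
  · intro i j u hu hij hj
    have hi : i ∈ i ::ₘ u := Multiset.mem_cons_self i u
    have key : ∀ w ∈ U₀, ∀ i ∈ w, i < 3 → w = {i} := by decide
    have h1 := key _ hu i hi (by omega)
    have hu0 : u = 0 := by
      have := congrArg Multiset.card h1
      simpa using this
    subst hu0
    have hi1 : 1 ≤ i := by
      have h : ∀ w ∈ U₀, ∀ i ∈ w, 1 ≤ i := by decide
      exact h _ hu i hi
    interval_cases j <;> first | omega | decide

lemma dmax_U₀ : dmax U₀ = 3 := by decide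

lemma facet_cubic : facet 3 2 3 {3, 3, 3} = {3, 4, 5, 6, 7} := by
  have h1 : (({3, 3, 3} : Multiset ℕ)).card = 3 := rfl
  have hs : Multiset.sort ({3, 3, 3} : Multiset ℕ) (· ≤ ·) = [3, 3, 3] := by
    have h := Multiset.sort_cons 3 {3, 3} (· ≤ ·) (by simp)
    rw [sort_pair 3 3 le_rfl] at h
    exact h
  rw [facet, if_neg (by rw [h1]; decide), h1]
  simp only [idx, hs]
  decide

/-- The six facets of `Δ_2(U₀)`. -/
def facets₀ : Finset (Finset ℕ) :=
  {{4, 5, 6, 7, 8}, {1, 2, 6, 7, 8}, {2, 3, 6, 7, 8}, {3, 4, 6, 7, 8}, {3, 4, 5, 6, 8},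
    {3, 4, 5, 6, 7}}

lemma image_facet : U₀.image (facet 3 2 3) = facets₀ := by
  have e0 : facet 3 2 3 0 = {4, 5, 6, 7, 8} := by rw [facet_zero]; decide
  have e1 : facet 3 2 3 {1} = {1, 2, 6, 7, 8} := by rw [facet_single _ _ _ _ (by omega)]; decide
  have e2 : facet 3 2 3 {2} = {2, 3, 6, 7, 8} := by rw [facet_single _ _ _ _ (by omega)]; decide
  have e3 : facet 3 2 3 {3} = {3, 4, 6, 7, 8} := by rw [facet_single _ _ _ _ (by omega)]; decide
  have e4 : facet 3 2 3 {3, 3} = {3, 4, 5, 6, 8} := by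
    rw [facet_pair _ _ _ _ _ (by omega) le_rfl]; decide
  simp only [U₀, Finset.image_insert, Finset.image_singleton, e0, e1, e2, e3, e4, facet_cubic,
    facets₀]

lemma mem_squeezed₀ (σ : Finset ℕ) : σ ∈ squeezed 3 2 U₀ ↔ ∃ F ∈ facets₀, σ ⊆ F := by
  rw [← image_facet]
  simp [squeezed, dmax_U₀]

lemma isFacet₀ (F : Finset ℕ) : IsFacet (squeezed 3 2 U₀) F ↔ F ∈ facets₀ := by
  have anti : ∀ F ∈ facets₀, ∀ G ∈ facets₀, F ⊆ G → G = F := by decide
  constructor
  · rintro ⟨h1, h2⟩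
    obtain ⟨G, hG, hFG⟩ := (mem_squeezed₀ F).1 h1
    have := h2 G ((mem_squeezed₀ G).2 ⟨G, hG, subset_rfl⟩) hFG
    exact this ▸ hG
  · intro hF
    refine ⟨(mem_squeezed₀ F).2 ⟨F, hF, subset_rfl⟩, ?_⟩
    intro G hG hFG
    obtain ⟨H, hH, hGH⟩ := (mem_squeezed₀ G).1 hG
    have := anti F hF H hH (hFG.trans hGH)
    exact le_antisymm (this ▸ hGH) hFG

/-- Membership in the boundary of `Δ_2(U₀)`, in a form that can be evaluated. -/
lemma mem_boundary₀ (σ : Finset ℕ) : σ ∈ boundary (squeezed 3 2 U₀) ↔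
    ∃ F ∈ facets₀, ∃ a ∈ F, σ ⊆ F.erase a ∧ ∀ G ∈ facets₀, F.erase a ⊆ G → G = F := by
  constructor
  · rintro ⟨R, F, hσ, hF, hRF, hc, hu⟩
    rw [isFacet₀] at hF
    obtain ⟨a, haR, haF⟩ : ∃ a, a ∉ R ∧ insert a R = F := by
      obtain ⟨a, ha⟩ := (Finset.covBy_iff_exists_insert).1
        ((Finset.covBy_iff_card_sdiff_eq_one).2 ⟨hRF, by
          rw [Finset.card_sdiff_of_subset hRF]; omega⟩)
      exact ⟨a, ha.1, ha.2⟩
    have hR : R = F.erase a := by rw [← haF, Finset.erase_insert haR]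
    refine ⟨F, hF, a, by rw [← haF]; exact Finset.mem_insert_self a R, hR ▸ hσ, ?_⟩
    intro G hG hFG
    exact hu G ((isFacet₀ G).2 hG) (hR ▸ hFG)
  · rintro ⟨F, hF, a, ha, hσ, hu⟩
    refine ⟨F.erase a, F, hσ, (isFacet₀ F).2 hF, Finset.erase_subset a F,
      Finset.card_erase_add_one ha, ?_⟩
    intro G hG hRG
    exact hu G ((isFacet₀ G).1 hG) hRG

/-! ### Vertices adjacent to all other vertices -/

/-- The vertex `v` of `K` is adjacent to every other vertex of `K`. -/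
def IsFull (K : Set (Finset ℕ)) (v : ℕ) : Prop :=
  ({v} : Finset ℕ) ∈ K ∧ ∀ w, ({w} : Finset ℕ) ∈ K → ({v, w} : Finset ℕ) ∈ K

lemma full₀ (v : ℕ) (h : IsFull (boundary (squeezed 3 2 U₀)) v) : v = 7 ∨ v = 8 := by
  obtain ⟨h1, h2⟩ := h
  have hv : v ∈ Finset.Icc 1 8 := by
    obtain ⟨F, hF, a, -, hσ, -⟩ := (mem_boundary₀ _).1 h1
    have hvF : v ∈ F := Finset.mem_of_mem_erase (Finset.singleton_subset_iff.1 hσ)
    have : ∀ F ∈ facets₀, ∀ v ∈ F, v ∈ Finset.Icc 1 8 := by decide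
    exact this F hF v hvF
  have m1 : ({1} : Finset ℕ) ∈ boundary (squeezed 3 2 U₀) := (mem_boundary₀ _).2 (by decide)
  have m3 : ({3} : Finset ℕ) ∈ boundary (squeezed 3 2 U₀) := (mem_boundary₀ _).2 (by decide)
  have m4 : ({4} : Finset ℕ) ∈ boundary (squeezed 3 2 U₀) := (mem_boundary₀ _).2 (by decide)
  have k1 := (mem_boundary₀ _).1 (h2 1 m1)
  have k3 := (mem_boundary₀ _).1 (h2 3 m3)
  have k4 := (mem_boundary₀ _).1 (h2 4 m4)
  rw [Finset.mem_Icc] at hv
  obtain ⟨hv1, hv8⟩ := hv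
  clear h1 h2 m1 m3 m4
  interval_cases v
  · exact absurd k3 (by decide)
  · exact absurd k4 (by decide)
  · exact absurd k1 (by decide)
  · exact absurd k1 (by decide)
  · exact absurd k1 (by decide)
  · exact absurd k4 (by decide)
  · exact Or.inl rfl
  · exact Or.inr rfl

/-! ### Kalai's squeezed balls -/

lemma card_facet_le (m t d : ℕ) (u : Multiset ℕ) (hu : u.card ≤ d) (hdt : d ≤ t) :
    (facet m t d u).card ≤ t + d := by
  rw [facet, if_pos (hu.trans hdt)]
  have h1 : ((Finset.Icc 1 u.card).biUnion fun k =>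
      ({idx u k + 2 * k - 2, idx u k + 2 * k - 1} : Finset ℕ)).card ≤ 2 * u.card := by
    refine Finset.card_biUnion_le.trans ?_
    calc ∑ k ∈ Finset.Icc 1 u.card,
          ({idx u k + 2 * k - 2, idx u k + 2 * k - 1} : Finset ℕ).card
        ≤ ∑ _k ∈ Finset.Icc 1 u.card, 2 := Finset.sum_le_sum fun k _ => Finset.card_le_two
      _ = 2 * u.card := by simp [mul_comm]
  have h2 : (Finset.Icc (m + 2 * u.card + 1) (m + t + d)).card = t + d - 2 * u.card := by
    rw [Nat.card_Icc]; omega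
  refine (Finset.card_union_le _ _).trans ?_
  rw [h2]
  omega

section Kalai

variable {m t : ℕ} {V : Finset (Multiset ℕ)}

lemma card_le_dmax {u : Multiset ℕ} (hu : u ∈ V) : u.card ≤ dmax V :=
  Finset.le_sup (f := Multiset.card) hu

lemma card_le_of_mem (ht : dmax V ≤ t) {G : Finset ℕ} (hG : G ∈ squeezed m t V) :
    G.card ≤ t + dmax V := by
  obtain ⟨u, hu, hGu⟩ := hG
  exact (Finset.card_le_card hGu).trans (card_facet_le m t _ u (card_le_dmax hu) ht)

lemma exists_of_isFacet {F : Finset ℕ} (hF : IsFacet (squeezed m t V) F) :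
    ∃ u ∈ V, F = facet m t (dmax V) u := by
  obtain ⟨⟨u, hu, hFu⟩, hmax⟩ := hF
  exact ⟨u, hu, (hmax _ ⟨u, hu, subset_rfl⟩ hFu).symm⟩

lemma isFacet_of_card (ht : dmax V ≤ t) {u : Multiset ℕ} (hu : u ∈ V)
    (hc : (facet m t (dmax V) u).card = t + dmax V) :
    IsFacet (squeezed m t V) (facet m t (dmax V) u) := by
  refine ⟨⟨u, hu, subset_rfl⟩, fun G hG hFG => ?_⟩
  exact (Finset.eq_of_subset_of_card_le hFG (by rw [hc]; exact card_le_of_mem ht hG)).symm

/-- The first index of a monomial of positive degree. -/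
lemma idx_one_mem (u : Multiset ℕ) (hu : u ≠ 0) : idx u 1 ∈ u := by
  have hlen : 0 < (u.sort (· ≤ ·)).length := by
    rw [Multiset.length_sort]
    exact Multiset.card_pos.2 hu
  have h : idx u 1 = (u.sort (· ≤ ·))[0] := by
    rw [idx]
    exact List.getD_eq_getElem _ _ hlen
  rw [h, ← Multiset.mem_sort (r := (· ≤ ·))]
  exact List.getElem_mem hlen

lemma ridge_zero_mem (hV : IsShiftedOrderIdeal m V) (ht : dmax V ≤ t) (hpos : 1 ≤ t + dmax V) :
    Finset.Icc (m + 2) (m + t + dmax V) ∈ boundary (squeezed m t V) := by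
  have hF : facet m t (dmax V) 0 = Finset.Icc (m + 1) (m + t + dmax V) := facet_zero _ _ _
  have hcF : (facet m t (dmax V) 0).card = t + dmax V := by
    rw [hF, Nat.card_Icc]; omega
  refine ⟨_, facet m t (dmax V) 0, subset_rfl, isFacet_of_card ht hV.one_mem hcF, ?_, ?_, ?_⟩
  · rw [hF]
    intro x hx
    rw [Finset.mem_Icc] at hx ⊢
    omega
  · rw [hcF, Nat.card_Icc]; omega
  · intro G hG hRG
    obtain ⟨u, hu, rfl⟩ := exists_of_isFacet hG
    by_cases hu0 : u = 0
    · rw [hu0]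
    · exfalso
      obtain ⟨hi1, him⟩ := hV.index_mem u hu _ (idx_one_mem u hu0)
      set i := idx u 1 with hi
      have hmem : i ∈ facet m t (dmax V) u ∧ i + 1 ∈ facet m t (dmax V) u := by
        have hs : 1 ≤ u.card := Multiset.card_pos.2 hu0
        rw [facet, if_pos ((card_le_dmax hu).trans ht)]
        constructor
        · refine Finset.mem_union_left _ (Finset.mem_biUnion.2 ⟨1, Finset.mem_Icc.2 ⟨le_rfl, hs⟩, ?_⟩)
          rw [← hi]; simp
        · refine Finset.mem_union_left _ (Finset.mem_biUnion.2 ⟨1, Finset.mem_Icc.2 ⟨le_rfl, hs⟩, ?_⟩)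
          rw [← hi]; simp
      have hsub : insert i (insert (i + 1) (Finset.Icc (m + 2) (m + t + dmax V))) ⊆
          facet m t (dmax V) u := by
        intro x hx
        rw [Finset.mem_insert, Finset.mem_insert] at hx
        rcases hx with rfl | rfl | hx
        · exact hmem.1
        · exact hmem.2
        · exact hRG hx
      have hc := (Finset.card_le_card hsub).trans (card_facet_le m t _ u (card_le_dmax hu) ht)
      rw [Finset.card_insert_of_notMem, Finset.card_insert_of_notMem, Nat.card_Icc] at hc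
      · omega
      · rw [Finset.mem_Icc]; omega
      · rw [Finset.mem_insert, Finset.mem_Icc]; omega

/-- The monomials of degree at most two. -/
lemma cases_of_card_le_two (hV : IsShiftedOrderIdeal m V) {u : Multiset ℕ} (hu : u ∈ V)
    (hc : u.card ≤ 2) :
    u = 0 ∨ (∃ i, 1 ≤ i ∧ i ≤ m ∧ u = {i}) ∨
      ∃ i j, 1 ≤ i ∧ i ≤ j ∧ j ≤ m ∧ u = {i, j} := by
  have h3 : u.card = 0 ∨ u.card = 1 ∨ u.card = 2 := by omega
  rcases h3 with h | h | h
  · exact Or.inl (Multiset.card_eq_zero.1 h)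
  · obtain ⟨i, rfl⟩ := Multiset.card_eq_one.1 h
    obtain ⟨h1, h2⟩ := hV.index_mem _ hu i (Multiset.mem_singleton_self i)
    exact Or.inr (Or.inl ⟨i, h1, h2, rfl⟩)
  · obtain ⟨i, j, rfl⟩ := Multiset.card_eq_two.1 h
    obtain ⟨h1, h2⟩ := hV.index_mem _ hu i (by simp)
    obtain ⟨h3, h4⟩ := hV.index_mem _ hu j (by simp)
    refine Or.inr (Or.inr ?_)
    rcases le_total i j with hij | hij
    · exact ⟨i, j, h1, hij, h4, rfl⟩
    · exact ⟨j, i, h3, hij, h2, Multiset.pair_comm i j⟩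

lemma ridge_var_mem (hV : IsShiftedOrderIdeal m V) (ht : dmax V ≤ t) (h5 : t + dmax V = 5)
    {i : ℕ} (hi : 1 ≤ i) (him : i ≤ m) {R : Finset ℕ}
    (hR : R = {i, i + 1, m + 4, m + 5} ∨ R = {i, i + 1, m + 3, m + 4}) :
    R ∈ boundary (squeezed m t V) := by
  have hmt : m + t + dmax V = m + 5 := by omega
  have hdm : dmax V ≤ 2 := by omega
  have hF : facet m t (dmax V) {i} = {i, i + 1, m + 3, m + 4, m + 5} := by
    rw [facet_single _ _ _ _ (by omega), hmt]
    ext x
    simp only [Finset.mem_union, Finset.mem_insert, Finset.mem_singleton, Finset.mem_Icc]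
    omega
  have hcF : (facet m t (dmax V) {i}).card = t + dmax V := by
    rw [hF, h5]
    have e : ({i, i + 1, m + 3, m + 4, m + 5} : Finset ℕ) =
      insert i (insert (i + 1) (insert (m + 3) (insert (m + 4) {m + 5}))) := rfl
    rw [e, Finset.card_insert_of_notMem, Finset.card_insert_of_notMem,
      Finset.card_insert_of_notMem, Finset.card_insert_of_notMem, Finset.card_singleton] <;>
    simp only [Finset.mem_insert, Finset.mem_singleton] <;> omega
  have hcR : R.card = 4 := by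
    rcases hR with rfl | rfl
    · rw [Finset.card_insert_of_notMem, Finset.card_insert_of_notMem,
        Finset.card_insert_of_notMem, Finset.card_singleton] <;>
      simp only [Finset.mem_insert, Finset.mem_singleton] <;> omega
    · rw [Finset.card_insert_of_notMem, Finset.card_insert_of_notMem,
        Finset.card_insert_of_notMem, Finset.card_singleton] <;>
      simp only [Finset.mem_insert, Finset.mem_singleton] <;> omega
  have hRmem : i ∈ R ∧ i + 1 ∈ R ∧ m + 4 ∈ R := by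
    rcases hR with rfl | rfl <;> simp
  refine ⟨R, facet m t (dmax V) {i}, subset_rfl,
    isFacet_of_card ht (hV.var_mem i hi him) hcF, ?_, ?_, ?_⟩
  · rw [hF]
    rcases hR with rfl | rfl
    · intro x hx
      simp only [Finset.mem_insert, Finset.mem_singleton] at hx ⊢
      omega
    · intro x hx
      simp only [Finset.mem_insert, Finset.mem_singleton] at hx ⊢
      omega
  · rw [hcR, hcF, h5]
  · intro G hG hRG
    obtain ⟨u, hu, rfl⟩ := exists_of_isFacet hG
    have hiG := hRG hRmem.1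
    have hi1G := hRG hRmem.2.1
    have h4G := hRG hRmem.2.2
    rcases cases_of_card_le_two hV hu ((card_le_dmax hu).trans hdm) with
      rfl | ⟨j, hj1, hj2, rfl⟩ | ⟨j, k, hj1, hjk, hk, rfl⟩
    · exfalso
      rw [facet_zero, Finset.mem_Icc] at hiG
      omega
    · rw [facet_single _ _ _ _ (by omega), hmt] at hiG hi1G
      simp only [Finset.mem_union, Finset.mem_insert, Finset.mem_singleton, Finset.mem_Icc]
        at hiG hi1G
      have : i = j := by omega
      rw [this]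
    · exfalso
      rw [facet_pair _ _ _ _ _ (by omega) hjk, hmt] at h4G
      simp only [Finset.mem_union, Finset.mem_insert, Finset.mem_singleton, Finset.mem_Icc]
        at h4G
      omega

lemma vertex_range (hV : IsShiftedOrderIdeal m V) (ht : dmax V ≤ t) (h5 : t + dmax V = 5)
    {w : ℕ} (hw : ({w} : Finset ℕ) ∈ boundary (squeezed m t V)) : 1 ≤ w ∧ w ≤ m + 5 := by
  have hmt : m + t + dmax V = m + 5 := by omega
  have hdm : dmax V ≤ 2 := by omega
  obtain ⟨R, F, hσ, hF, hRF, -, -⟩ := hw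
  have hwF : w ∈ F := hRF (Finset.singleton_subset_iff.1 hσ)
  obtain ⟨u, hu, rfl⟩ := exists_of_isFacet hF
  rcases cases_of_card_le_two hV hu ((card_le_dmax hu).trans hdm) with
    rfl | ⟨j, hj1, hj2, rfl⟩ | ⟨j, k, hj1, hjk, hk, rfl⟩
  · rw [facet_zero, Finset.mem_Icc] at hwF
    omega
  · rw [facet_single _ _ _ _ (by omega), hmt] at hwF
    simp only [Finset.mem_union, Finset.mem_insert, Finset.mem_singleton, Finset.mem_Icc] at hwF
    omega
  · rw [facet_pair _ _ _ _ _ (by omega) hjk, hmt] at hwF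
    simp only [Finset.mem_union, Finset.mem_insert, Finset.mem_singleton, Finset.mem_Icc] at hwF
    omega

/-- The boundary complex is closed under taking subsets. -/
lemma boundary_down {K : Set (Finset ℕ)} {σ τ : Finset ℕ} (hσ : σ ∈ boundary K) (h : τ ⊆ σ) :
    τ ∈ boundary K := by
  obtain ⟨R, F, h1, h2⟩ := hσ
  exact ⟨R, F, h.trans h1, h2⟩

lemma zero_ridge_mem (hV : IsShiftedOrderIdeal 0 V) (ht : dmax V ≤ t) (h5 : t + dmax V = 5) :
    ({1, 3, 4, 5} : Finset ℕ) ∈ boundary (squeezed 0 t V) := by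
  have hmt : 0 + t + dmax V = 5 := by omega
  have hF : facet 0 t (dmax V) 0 = {1, 2, 3, 4, 5} := by
    rw [facet_zero, hmt]; decide
  refine ⟨_, facet 0 t (dmax V) 0, subset_rfl,
    isFacet_of_card ht hV.one_mem (by rw [hF, h5]; decide), ?_, ?_, ?_⟩
  · rw [hF]; decide
  · rw [hF]; decide
  · intro G hG _
    obtain ⟨u, hu, rfl⟩ := exists_of_isFacet hG
    have : u = 0 := by
      rw [Multiset.eq_zero_iff_forall_notMem]
      intro i hi
      have := hV.index_mem u hu i hi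
      omega
    rw [this]

lemma full_of_sum_eq_five (hV : IsShiftedOrderIdeal m V) (ht : dmax V ≤ t)
    (h5 : t + dmax V = 5) {c : ℕ} (hc : c = m + 3 ∨ c = m + 4 ∨ c = m + 5) :
    IsFull (boundary (squeezed m t V)) c := by
  have hmt : m + t + dmax V = m + 5 := by omega
  have hR0 := ridge_zero_mem hV ht (by omega)
  rw [hmt] at hR0
  refine ⟨boundary_down hR0 ?_, fun w hw => ?_⟩
  · rw [Finset.singleton_subset_iff, Finset.mem_Icc]; omega
  obtain ⟨hw1, hw2⟩ := vertex_range hV ht h5 hw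
  -- the three cases for `w`
  by_cases hwm : m + 2 ≤ w
  · refine boundary_down hR0 ?_
    intro x hx
    simp only [Finset.mem_insert, Finset.mem_singleton] at hx
    rw [Finset.mem_Icc]; omega
  · by_cases hm : m = 0
    · subst hm
      refine boundary_down (zero_ridge_mem hV ht h5) ?_
      intro x hx
      simp only [Finset.mem_insert, Finset.mem_singleton] at hx ⊢
      omega
    · have hex : ∃ i, 1 ≤ i ∧ i ≤ m ∧ (w = i ∨ w = i + 1) := by
        by_cases h : w ≤ m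
        · exact ⟨w, hw1, h, Or.inl rfl⟩
        · exact ⟨m, by omega, le_rfl, Or.inr (by omega)⟩
      obtain ⟨i, hi1, him, hwi⟩ := hex
      by_cases hc3 : c = m + 3
      · refine boundary_down (ridge_var_mem hV ht h5 hi1 him (Or.inr rfl)) ?_
        intro x hx
        simp only [Finset.mem_insert, Finset.mem_singleton] at hx ⊢
        omega
      · refine boundary_down (ridge_var_mem hV ht h5 hi1 him (Or.inl rfl)) ?_
        intro x hx
        simp only [Finset.mem_insert, Finset.mem_singleton] at hx ⊢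
        omega

end Kalai

/-! ### The boundary of `Δ_2(U₀)` is not a Kalai squeezed sphere -/

lemma image_inj {K : Set (Finset ℕ)} {f : ℕ → ℕ}
    (hf : Set.InjOn f {v | ({v} : Finset ℕ) ∈ K}) (hK : ∀ σ ∈ K, ∀ τ, τ ⊆ σ → τ ∈ K)
    {σ : Finset ℕ} (hσ : σ ∈ K) : Set.InjOn f σ := by
  intro a ha b hb hab
  exact hf (hK σ hσ {a} (by simpa using ha)) (hK σ hσ {b} (by simpa using hb)) hab

theorem not_kalai₀ : ¬ IsKalaiSqueezedSphere (boundary (squeezed 3 2 U₀)) := by
  rintro ⟨m, t, V, hV, ht, f, hf, himg⟩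
  set B := boundary (squeezed 3 2 U₀) with hB
  have hdown : ∀ σ ∈ B, ∀ τ, τ ⊆ σ → τ ∈ B := fun σ hσ τ h => boundary_down hσ h
  -- faces of `B` have at most four elements
  have hB4 : ∀ σ ∈ B, σ.card ≤ 4 := by
    intro σ hσ
    obtain ⟨F, hF, a, ha, hs, -⟩ := (mem_boundary₀ σ).1 hσ
    have h5 : ∀ F ∈ facets₀, F.card = 5 := by decide
    have := Finset.card_le_card hs
    rw [Finset.card_erase_of_mem ha, h5 F hF] at this
    exact this
  have hface : ({1, 6, 7, 8} : Finset ℕ) ∈ B := (mem_boundary₀ _).2 (by decide)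
  -- lower bound for `t + d`
  have h5 : t + dmax V = 5 := by
    have h1 : ({1, 6, 7, 8} : Finset ℕ).image f ∈ boundary (squeezed m t V) := by
      rw [← himg]; exact ⟨_, hface, rfl⟩
    have hc : (({1, 6, 7, 8} : Finset ℕ).image f).card = 4 := by
      rw [Finset.card_image_of_injOn (image_inj hf hdown hface)]; rfl
    obtain ⟨R, F, hσ, hF, hRF, hcard, -⟩ := h1
    have h2 := Finset.card_le_card hσ
    have h3 := card_le_of_mem ht hF.1
    have h4 : 1 ≤ t + dmax V := by omega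
    have h6 := ridge_zero_mem hV ht h4
    rw [← himg] at h6
    obtain ⟨σ, hσB, hσe⟩ := h6
    have h7 := hB4 σ hσB
    have h8 : (σ.image f).card ≤ σ.card := Finset.card_image_le
    have h9 : (Finset.Icc (m + 2) (m + t + dmax V)).card = t + dmax V - 1 := by
      rw [Nat.card_Icc]; omega
    have h10 : σ.image f = Finset.Icc (m + 2) (m + t + dmax V) := hσe
    rw [h10, h9] at h8
    omega
  -- pull back full vertices
  have pull : ∀ c, IsFull (boundary (squeezed m t V)) c → ∃ α, f α = c ∧ IsFull B α := by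
    rintro c ⟨hc1, hc2⟩
    have hc1' := hc1
    rw [← himg] at hc1'
    obtain ⟨σ, hσ, hσc⟩ := hc1'
    have hσc' : σ.image f = {c} := hσc
    have hcard : σ.card = 1 := by
      rw [← Finset.card_image_of_injOn (image_inj hf hdown hσ), hσc', Finset.card_singleton]
    obtain ⟨α, rfl⟩ := Finset.card_eq_one.1 hcard
    rw [Finset.image_singleton, Finset.singleton_inj] at hσc'
    refine ⟨α, hσc', hσ, fun w hw => ?_⟩
    have hw' : ({f w} : Finset ℕ) ∈ boundary (squeezed m t V) := by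
      rw [← himg]; exact ⟨{w}, hw, by simp⟩
    have hcw := hc2 _ hw'
    rw [← himg] at hcw
    obtain ⟨τ, hτ, hτe⟩ := hcw
    have hτe' : τ.image f = {c, f w} := hτe
    refine hdown τ hτ _ ?_
    intro x hx
    rw [Finset.mem_insert, Finset.mem_singleton] at hx
    have hfx : f x ∈ τ.image f := by
      rw [hτe']
      rcases hx with rfl | rfl
      · rw [hσc']; simp
      · simp
    obtain ⟨y, hy, hyx⟩ := Finset.mem_image.1 hfx
    have hxB : ({x} : Finset ℕ) ∈ B := by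
      rcases hx with rfl | rfl
      · exact hσ
      · exact hw
    have hyB : ({y} : Finset ℕ) ∈ B := hdown τ hτ _ (by simpa using hy)
    have : y = x := hf hyB hxB hyx
    exact this ▸ hy
  obtain ⟨α, hα, hα'⟩ := pull _ (full_of_sum_eq_five hV ht h5 (Or.inl rfl))
  obtain ⟨β, hβ, hβ'⟩ := pull _ (full_of_sum_eq_five hV ht h5 (Or.inr (Or.inl rfl)))
  obtain ⟨γ, hγ, hγ'⟩ := pull _ (full_of_sum_eq_five hV ht h5 (Or.inr (Or.inr rfl)))
  have a1 := full₀ α hα'
  have a2 := full₀ β hβ'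
  have a3 := full₀ γ hγ'
  have n1 : α ≠ β := by rintro rfl; omega
  have n2 : α ≠ γ := by rintro rfl; omega
  have n3 : β ≠ γ := by rintro rfl; omega
  omega

/-! ### `Δ_2(U₀)` is a ball -/

/-- A convex body in four-dimensional space. -/
def P₀ : Set (EuclideanSpace ℝ (Fin 4)) :=
  {p | 0 ≤ p 0 ∧ 0 ≤ p 1 ∧ 0 ≤ p 2 ∧ 0 ≤ p 3 ∧ p 3 ≤ 3 * (1 - p 0 - p 1 - p 2)}

/-- Barycentric coordinates on a path. -/
noncomputable def pw (s μ j : ℝ) : ℝ := max 0 (s - |μ - j * s|)

/-- The weight of the interior vertex, divided by four. -/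
noncomputable def qw (s μ b c : ℝ) : ℝ := min (min (pw s μ 2) (pw s μ 3)) (min b c)

/-- The map from the realization to the convex body. -/
noncomputable def Phi (x : ℕ → ℝ) : EuclideanSpace ℝ (Fin 4) :=
  !₂[x 6, x 7 + x 4 / 4, x 8 + x 4 / 4, x 2 + 2 * (x 3 + x 4 / 4) + 3 * (x 5 + x 4 / 4)]

/-- The inverse map, in coordinates. -/
noncomputable def psi (a b c μ : ℝ) (i : ℕ) : ℝ :=
  if i = 1 then pw (1 - a - b - c) μ 0
  else if i = 2 then pw (1 - a - b - c) μ 1
  else if i = 3 then pw (1 - a - b - c) μ 2 - qw (1 - a - b - c) μ b c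
  else if i = 4 then 4 * qw (1 - a - b - c) μ b c
  else if i = 5 then pw (1 - a - b - c) μ 3 - qw (1 - a - b - c) μ b c
  else if i = 6 then a
  else if i = 7 then b - qw (1 - a - b - c) μ b c
  else if i = 8 then c - qw (1 - a - b - c) μ b c
  else 0

/-- The inverse map. -/
noncomputable def Psi (p : EuclideanSpace ℝ (Fin 4)) : ℕ → ℝ := psi (p 0) (p 1) (p 2) (p 3)

lemma pw_case1 {s μ : ℝ} (h0 : 0 ≤ μ) (h1 : μ ≤ s) :
    pw s μ 0 = s - μ ∧ pw s μ 1 = μ ∧ pw s μ 2 = 0 ∧ pw s μ 3 = 0 := by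
  refine ⟨?_, ?_, ?_, ?_⟩
  · rw [pw, abs_of_nonneg (by linarith), max_eq_right (by linarith)]; ring
  · rw [pw, abs_of_nonpos (by linarith), max_eq_right (by linarith)]; ring
  · rw [pw, abs_of_nonpos (by linarith), max_eq_left (by linarith)]
  · rw [pw, abs_of_nonpos (by linarith), max_eq_left (by linarith)]

lemma pw_case2 {s μ : ℝ} (h0 : 0 ≤ s) (h1 : s ≤ μ) (h2 : μ ≤ 2 * s) :
    pw s μ 0 = 0 ∧ pw s μ 1 = 2 * s - μ ∧ pw s μ 2 = μ - s ∧ pw s μ 3 = 0 := by
  refine ⟨?_, ?_, ?_, ?_⟩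
  · rw [pw, abs_of_nonneg (by linarith), max_eq_left (by linarith)]
  · rw [pw, abs_of_nonneg (by linarith), max_eq_right (by linarith)]; ring
  · rw [pw, abs_of_nonpos (by linarith), max_eq_right (by linarith)]; ring
  · rw [pw, abs_of_nonpos (by linarith), max_eq_left (by linarith)]

lemma pw_case3 {s μ : ℝ} (h0 : 0 ≤ s) (h1 : 2 * s ≤ μ) (h2 : μ ≤ 3 * s) :
    pw s μ 0 = 0 ∧ pw s μ 1 = 0 ∧ pw s μ 2 = 3 * s - μ ∧ pw s μ 3 = μ - 2 * s := by
  refine ⟨?_, ?_, ?_, ?_⟩
  · rw [pw, abs_of_nonneg (by linarith), max_eq_left (by linarith)]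
  · rw [pw, abs_of_nonneg (by linarith), max_eq_left (by linarith)]
  · rw [pw, abs_of_nonneg (by linarith), max_eq_right (by linarith)]; ring
  · rw [pw, abs_of_nonpos (by linarith), max_eq_right (by linarith)]; ring

lemma mem_realization₀ (x : ℕ → ℝ) : x ∈ realization (squeezed 3 2 U₀) ↔
    (∀ i, 0 ≤ x i) ∧ ∃ F ∈ facets₀, (∀ i, i ∉ F → x i = 0) ∧ ∑ i ∈ F, x i = 1 := by
  constructor
  · rintro ⟨h0, σ, hσ, h1, h2⟩
    obtain ⟨F, hF, hσF⟩ := (mem_squeezed₀ σ).1 hσ
    refine ⟨h0, F, hF, fun i hi => h1 i (fun h => hi (hσF h)), ?_⟩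
    rw [← h2]
    exact (Finset.sum_subset hσF fun i _ hi => h1 i hi).symm
  · rintro ⟨h0, F, hF, h1, h2⟩
    exact ⟨h0, F, (mem_squeezed₀ F).2 ⟨F, hF, subset_rfl⟩, h1, h2⟩

/-- The points of the realization, in three cases. -/
lemma cases_realization₀ {x : ℕ → ℝ} (hx : x ∈ realization (squeezed 3 2 U₀)) :
    (∀ i, 0 ≤ x i) ∧ x 0 = 0 ∧ (∀ i, 9 ≤ i → x i = 0) ∧
    ((x 3 = 0 ∧ x 4 = 0 ∧ x 5 = 0 ∧ x 1 + x 2 + x 6 + x 7 + x 8 = 1) ∨
      (x 1 = 0 ∧ x 4 = 0 ∧ x 5 = 0 ∧ x 2 + x 3 + x 6 + x 7 + x 8 = 1) ∨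
      (x 1 = 0 ∧ x 2 = 0 ∧ (x 3 = 0 ∨ x 5 = 0 ∨ x 7 = 0 ∨ x 8 = 0) ∧
        x 3 + x 4 + x 5 + x 6 + x 7 + x 8 = 1)) := by
  obtain ⟨h0, F, hF, h1, h2⟩ := (mem_realization₀ x).1 hx
  have hr : ∀ F ∈ facets₀, ∀ i ∈ F, 1 ≤ i ∧ i ≤ 8 := by decide
  refine ⟨h0, h1 0 (fun h => ?_), fun i hi => h1 i (fun h => ?_), ?_⟩
  · have := hr F hF 0 h; omega
  · have := hr F hF i h; omega
  simp only [facets₀, Finset.mem_insert, Finset.mem_singleton] at hF
  rcases hF with rfl | rfl | rfl | rfl | rfl | rfl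
  · right; right
    refine ⟨h1 1 (by decide), h1 2 (by decide), Or.inl (h1 3 (by decide)), ?_⟩
    rw [h1 3 (by decide), ← h2]
    simp [Finset.sum_insert]; ring
  · left
    refine ⟨h1 3 (by decide), h1 4 (by decide), h1 5 (by decide), ?_⟩
    rw [← h2]
    simp [Finset.sum_insert]; ring
  · right; left
    refine ⟨h1 1 (by decide), h1 4 (by decide), h1 5 (by decide), ?_⟩
    rw [← h2]
    simp [Finset.sum_insert]; ring
  · right; right
    refine ⟨h1 1 (by decide), h1 2 (by decide), Or.inr (Or.inl (h1 5 (by decide))), ?_⟩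
    rw [h1 5 (by decide), ← h2]
    simp [Finset.sum_insert]; ring
  · right; right
    refine ⟨h1 1 (by decide), h1 2 (by decide), Or.inr (Or.inr (Or.inl (h1 7 (by decide)))), ?_⟩
    rw [h1 7 (by decide), ← h2]
    simp [Finset.sum_insert]; ring
  · right; right
    refine ⟨h1 1 (by decide), h1 2 (by decide), Or.inr (Or.inr (Or.inr (h1 8 (by decide)))), ?_⟩
    rw [h1 8 (by decide), ← h2]
    simp [Finset.sum_insert]; ring

lemma Phi_mem {x : ℕ → ℝ} (hx : x ∈ realization (squeezed 3 2 U₀)) : Phi x ∈ P₀ := by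
  obtain ⟨h0, -, -, h⟩ := cases_realization₀ hx
  have e1 := h0 1
  have e2 := h0 2
  have e3 := h0 3
  have e4 := h0 4
  have e5 := h0 5
  have e6 := h0 6
  have e7 := h0 7
  have e8 := h0 8
  refine ⟨?_, ?_, ?_, ?_, ?_⟩
  · simpa [Phi] using e6
  · simp only [Phi, PiLp.toLp_apply, Matrix.cons_val]; linarith
  · simp only [Phi, PiLp.toLp_apply, Matrix.cons_val]; linarith
  · simp only [Phi, PiLp.toLp_apply, Matrix.cons_val]; linarith
  · simp only [Phi, PiLp.toLp_apply, Matrix.cons_val]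
    rcases h with ⟨a1, a2, a3, a4⟩ | ⟨a1, a2, a3, a4⟩ | ⟨a1, a2, a3, a4⟩ <;> linarith

lemma psi_nonneg {a b c μ : ℝ} (ha : 0 ≤ a) (hb : 0 ≤ b) (hc : 0 ≤ c) (i : ℕ) :
    0 ≤ psi a b c μ i := by
  have w : ∀ j, 0 ≤ pw (1 - a - b - c) μ j := fun j => le_max_left _ _
  have q0 : 0 ≤ qw (1 - a - b - c) μ b c := le_min (le_min (w 2) (w 3)) (le_min hb hc)
  have q2 : qw (1 - a - b - c) μ b c ≤ pw (1 - a - b - c) μ 2 :=
    (min_le_left _ _).trans (min_le_left _ _)
  have q3 : qw (1 - a - b - c) μ b c ≤ pw (1 - a - b - c) μ 3 :=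
    (min_le_left _ _).trans (min_le_right _ _)
  have qb : qw (1 - a - b - c) μ b c ≤ b := (min_le_right _ _).trans (min_le_left _ _)
  have qc : qw (1 - a - b - c) μ b c ≤ c := (min_le_right _ _).trans (min_le_right _ _)
  unfold psi
  split_ifs
  · exact w 0
  · exact w 1
  · linarith
  · linarith
  · linarith
  · exact ha
  · linarith
  · linarith
  · exact le_rfl

lemma Psi_mem {p : EuclideanSpace ℝ (Fin 4)} (hp : p ∈ P₀) :
    Psi p ∈ realization (squeezed 3 2 U₀) := by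
  obtain ⟨ha, hb, hc, hμ, hs⟩ := hp
  rw [mem_realization₀]
  refine ⟨fun i => psi_nonneg ha hb hc i, ?_⟩
  unfold Psi
  generalize p 0 = a at *
  generalize p 1 = b at *
  generalize p 2 = c at *
  generalize p 3 = μ at *
  have hs0 : 0 ≤ 1 - a - b - c := by linarith
  rcases le_total μ (1 - a - b - c) with h1 | h1
  · obtain ⟨w0, w1, w2, w3⟩ := pw_case1 hμ h1
    have hq : qw (1 - a - b - c) μ b c = 0 := by
      rw [qw, w2, w3, min_self, min_eq_left (le_min hb hc)]
    refine ⟨{1, 2, 6, 7, 8}, by decide, ?_, ?_⟩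
    · intro i hi
      simp only [Finset.mem_insert, Finset.mem_singleton, not_or] at hi
      obtain ⟨i1, i2, i6, i7, i8⟩ := hi
      simp only [psi, if_neg i1, if_neg i2, if_neg i6, if_neg i7, if_neg i8, w2, w3, hq]
      split_ifs <;> ring
    · simp [Finset.sum_insert, psi, w0, w1, hq]; ring
  rcases le_total μ (2 * (1 - a - b - c)) with h2 | h2
  · obtain ⟨w0, w1, w2, w3⟩ := pw_case2 hs0 h1 h2
    have hq : qw (1 - a - b - c) μ b c = 0 := by
      rw [qw, w2, w3, min_eq_right (show (0 : ℝ) ≤ μ - (1 - a - b - c) by linarith),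
        min_eq_left (le_min hb hc)]
    refine ⟨{2, 3, 6, 7, 8}, by decide, ?_, ?_⟩
    · intro i hi
      simp only [Finset.mem_insert, Finset.mem_singleton, not_or] at hi
      obtain ⟨i1, i2, i6, i7, i8⟩ := hi
      simp only [psi, if_neg i1, if_neg i2, if_neg i6, if_neg i7, if_neg i8, w0, w3, hq]
      split_ifs <;> ring
    · simp [Finset.sum_insert, psi, w1, w2, hq]; ring
  · obtain ⟨w0, w1, w2, w3⟩ := pw_case3 hs0 h2 hs
    have hsum : pw (1 - a - b - c) μ 2 + pw (1 - a - b - c) μ 3 = 1 - a - b - c := by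
      rw [w2, w3]; ring
    have hq : qw (1 - a - b - c) μ b c = pw (1 - a - b - c) μ 2 ∨
        qw (1 - a - b - c) μ b c = pw (1 - a - b - c) μ 3 ∨
        qw (1 - a - b - c) μ b c = b ∨ qw (1 - a - b - c) μ b c = c := by
      unfold qw
      rcases min_choice (min (pw (1 - a - b - c) μ 2) (pw (1 - a - b - c) μ 3)) (min b c) with
        h | h <;> rw [h]
      · rcases min_choice (pw (1 - a - b - c) μ 2) (pw (1 - a - b - c) μ 3) with h | h <;>
          rw [h] <;> simp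
      · rcases min_choice b c with h | h <;> rw [h] <;> simp
    clear w2 w3
    generalize hqq : qw (1 - a - b - c) μ b c = q at *
    generalize hu : pw (1 - a - b - c) μ 2 = u at *
    generalize hv : pw (1 - a - b - c) μ 3 = v at *
    rcases hq with h | h | h | h
    · refine ⟨{4, 5, 6, 7, 8}, by decide, ?_, ?_⟩
      · intro i hi
        simp only [Finset.mem_insert, Finset.mem_singleton, not_or] at hi
        obtain ⟨i1, i2, i6, i7, i8⟩ := hi
        simp only [psi, if_neg i1, if_neg i2, if_neg i6, if_neg i7, if_neg i8, w0, w1, hqq, hu, h]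
        split_ifs <;> ring
      · simp [Finset.sum_insert, psi, hqq, hv]; linarith
    · refine ⟨{3, 4, 6, 7, 8}, by decide, ?_, ?_⟩
      · intro i hi
        simp only [Finset.mem_insert, Finset.mem_singleton, not_or] at hi
        obtain ⟨i1, i2, i6, i7, i8⟩ := hi
        simp only [psi, if_neg i1, if_neg i2, if_neg i6, if_neg i7, if_neg i8, w0, w1, hqq, hv, h]
        split_ifs <;> ring
      · simp [Finset.sum_insert, psi, hqq, hu]; linarith
    · refine ⟨{3, 4, 5, 6, 8}, by decide, ?_, ?_⟩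
      · intro i hi
        simp only [Finset.mem_insert, Finset.mem_singleton, not_or] at hi
        obtain ⟨i1, i2, i6, i7, i8⟩ := hi
        simp only [psi, if_neg i1, if_neg i2, if_neg i6, if_neg i7, if_neg i8, w0, w1, hqq, h]
        split_ifs <;> ring
      · simp [Finset.sum_insert, psi, hqq, hu, hv]; linarith
    · refine ⟨{3, 4, 5, 6, 7}, by decide, ?_, ?_⟩
      · intro i hi
        simp only [Finset.mem_insert, Finset.mem_singleton, not_or] at hi
        obtain ⟨i1, i2, i6, i7, i8⟩ := hi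
        simp only [psi, if_neg i1, if_neg i2, if_neg i6, if_neg i7, if_neg i8, w0, w1, hqq, h]
        split_ifs <;> ring
      · simp [Finset.sum_insert, psi, hqq, hu, hv]; linarith

lemma Phi_Psi {p : EuclideanSpace ℝ (Fin 4)} (hp : p ∈ P₀) : Phi (Psi p) = p := by
  obtain ⟨ha, hb, hc, hμ, hs⟩ := hp
  have hs0 : 0 ≤ 1 - p 0 - p 1 - p 2 := by linarith
  have hmom : pw (1 - p 0 - p 1 - p 2) (p 3) 1 + 2 * pw (1 - p 0 - p 1 - p 2) (p 3) 2 +
      3 * pw (1 - p 0 - p 1 - p 2) (p 3) 3 = p 3 := by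
    rcases le_total (p 3) (1 - p 0 - p 1 - p 2) with h1 | h1
    · obtain ⟨w0, w1, w2, w3⟩ := pw_case1 hμ h1
      rw [w1, w2, w3]; ring
    rcases le_total (p 3) (2 * (1 - p 0 - p 1 - p 2)) with h2 | h2
    · obtain ⟨w0, w1, w2, w3⟩ := pw_case2 hs0 h1 h2
      rw [w1, w2, w3]; ring
    · obtain ⟨w0, w1, w2, w3⟩ := pw_case3 hs0 h2 hs
      rw [w1, w2, w3]; ring
  ext i
  fin_cases i
  · simp [Phi, Psi, psi]
  · simp [Phi, Psi, psi]
  · simp [Phi, Psi, psi]
  · simp only [Phi, Psi, psi, PiLp.toLp_apply]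
    norm_num
    exact hmom

lemma Psi_Phi {x : ℕ → ℝ} (hx : x ∈ realization (squeezed 3 2 U₀)) : Psi (Phi x) = x := by
  obtain ⟨h0, hz, h9, h⟩ := cases_realization₀ hx
  have e1 := h0 1
  have e2 := h0 2
  have e3 := h0 3
  have e4 := h0 4
  have e5 := h0 5
  have e6 := h0 6
  have e7 := h0 7
  have e8 := h0 8
  have key : Psi (Phi x) = psi (x 6) (x 7 + x 4 / 4) (x 8 + x 4 / 4)
      (x 2 + 2 * (x 3 + x 4 / 4) + 3 * (x 5 + x 4 / 4)) := by
    simp [Psi, Phi]
  rw [key]
  -- the values of the weights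
  have hw : pw (1 - x 6 - (x 7 + x 4 / 4) - (x 8 + x 4 / 4))
        (x 2 + 2 * (x 3 + x 4 / 4) + 3 * (x 5 + x 4 / 4)) 0 = x 1 ∧
      pw (1 - x 6 - (x 7 + x 4 / 4) - (x 8 + x 4 / 4))
        (x 2 + 2 * (x 3 + x 4 / 4) + 3 * (x 5 + x 4 / 4)) 1 = x 2 ∧
      pw (1 - x 6 - (x 7 + x 4 / 4) - (x 8 + x 4 / 4))
        (x 2 + 2 * (x 3 + x 4 / 4) + 3 * (x 5 + x 4 / 4)) 2 = x 3 + x 4 / 4 ∧
      pw (1 - x 6 - (x 7 + x 4 / 4) - (x 8 + x 4 / 4))
        (x 2 + 2 * (x 3 + x 4 / 4) + 3 * (x 5 + x 4 / 4)) 3 = x 5 + x 4 / 4 := by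
    rcases h with ⟨a1, a2, a3, a4⟩ | ⟨a1, a2, a3, a4⟩ | ⟨a1, a2, a3, a4⟩
    · obtain ⟨w0, w1, w2, w3⟩ := pw_case1
        (s := 1 - x 6 - (x 7 + x 4 / 4) - (x 8 + x 4 / 4))
        (μ := x 2 + 2 * (x 3 + x 4 / 4) + 3 * (x 5 + x 4 / 4)) (by linarith) (by linarith)
      rw [w0, w1, w2, w3]
      refine ⟨?_, ?_, ?_, ?_⟩ <;> linarith
    · obtain ⟨w0, w1, w2, w3⟩ := pw_case2
        (s := 1 - x 6 - (x 7 + x 4 / 4) - (x 8 + x 4 / 4))
        (μ := x 2 + 2 * (x 3 + x 4 / 4) + 3 * (x 5 + x 4 / 4)) (by linarith) (by linarith)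
        (by linarith)
      rw [w0, w1, w2, w3]
      refine ⟨?_, ?_, ?_, ?_⟩ <;> linarith
    · obtain ⟨w0, w1, w2, w3⟩ := pw_case3
        (s := 1 - x 6 - (x 7 + x 4 / 4) - (x 8 + x 4 / 4))
        (μ := x 2 + 2 * (x 3 + x 4 / 4) + 3 * (x 5 + x 4 / 4)) (by linarith) (by linarith)
        (by linarith)
      rw [w0, w1, w2, w3]
      refine ⟨?_, ?_, ?_, ?_⟩ <;> linarith
  obtain ⟨w0, w1, w2, w3⟩ := hw
  have hq : qw (1 - x 6 - (x 7 + x 4 / 4) - (x 8 + x 4 / 4))
        (x 2 + 2 * (x 3 + x 4 / 4) + 3 * (x 5 + x 4 / 4)) (x 7 + x 4 / 4) (x 8 + x 4 / 4) =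
      x 4 / 4 := by
    rw [qw, w2, w3]
    apply le_antisymm
    · rcases h with ⟨a1, a2, a3, a4⟩ | ⟨a1, a2, a3, a4⟩ | ⟨a1, a2, a3, a4⟩
      · exact ((min_le_left _ _).trans (min_le_left _ _)).trans (by linarith)
      · exact ((min_le_left _ _).trans (min_le_right _ _)).trans (by linarith)
      · rcases a3 with a3 | a3 | a3 | a3
        · exact ((min_le_left _ _).trans (min_le_left _ _)).trans (by linarith)
        · exact ((min_le_left _ _).trans (min_le_right _ _)).trans (by linarith)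
        · exact ((min_le_right _ _).trans (min_le_left _ _)).trans (by linarith)
        · exact ((min_le_right _ _).trans (min_le_right _ _)).trans (by linarith)
    · exact le_min (le_min (by linarith) (by linarith)) (le_min (by linarith) (by linarith))
  funext i
  unfold psi
  rw [w0, w1, w2, w3, hq]
  split_ifs with i1 i2 i3 i4 i5 i6 i7 i8
  · rw [i1]
  · rw [i2]
  · rw [i3]; ring
  · rw [i4]; ring
  · rw [i5]; ring
  · rw [i6]
  · rw [i7]; ring
  · rw [i8]; ring
  · by_cases hi : 9 ≤ i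
    · exact (h9 i hi).symm
    · have : i = 0 := by omega
      rw [this, hz]

lemma continuous_Phi : Continuous Phi := by
  unfold Phi
  fun_prop

lemma continuous_Psi : Continuous Psi := by
  refine continuous_pi fun i => ?_
  unfold Psi psi qw pw
  split_ifs <;> fun_prop

/-- The realization of `Δ_2(U₀)` is homeomorphic to the convex body. -/
noncomputable def homeo₀ : realization (squeezed 3 2 U₀) ≃ₜ P₀ where
  toFun x := ⟨Phi x, Phi_mem x.2⟩
  invFun p := ⟨Psi p, Psi_mem p.2⟩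
  left_inv x := Subtype.ext (Psi_Phi x.2)
  right_inv p := Subtype.ext (Phi_Psi p.2)
  continuous_toFun := (continuous_Phi.comp continuous_subtype_val).subtype_mk _
  continuous_invFun := (continuous_Psi.comp continuous_subtype_val).subtype_mk _

lemma convex_P₀ : Convex ℝ P₀ := by
  rintro x ⟨x0, x1, x2, x3, x4⟩ y ⟨y0, y1, y2, y3, y4⟩ a b ha hb hab
  refine ⟨?_, ?_, ?_, ?_, ?_⟩
  · simp only [PiLp.add_apply, PiLp.smul_apply, smul_eq_mul]; positivity
  · simp only [PiLp.add_apply, PiLp.smul_apply, smul_eq_mul]; positivity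
  · simp only [PiLp.add_apply, PiLp.smul_apply, smul_eq_mul]; positivity
  · simp only [PiLp.add_apply, PiLp.smul_apply, smul_eq_mul]; positivity
  · simp only [PiLp.add_apply, PiLp.smul_apply, smul_eq_mul]
    have h1 := mul_le_mul_of_nonneg_left x4 ha
    have h2 := mul_le_mul_of_nonneg_left y4 hb
    have h3 : b = 1 - a := by linarith
    subst h3
    linarith

lemma isClosed_P₀ : IsClosed P₀ := by
  have : P₀ = {p | 0 ≤ p 0} ∩ ({p | 0 ≤ p 1} ∩ ({p | 0 ≤ p 2} ∩ ({p | 0 ≤ p 3} ∩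
      {p | p 3 ≤ 3 * (1 - p 0 - p 1 - p 2)}))) := rfl
  rw [this]
  refine (isClosed_le (by fun_prop) (by fun_prop)).inter ?_
  refine (isClosed_le (by fun_prop) (by fun_prop)).inter ?_
  refine (isClosed_le (by fun_prop) (by fun_prop)).inter ?_
  refine (isClosed_le (by fun_prop) (by fun_prop)).inter ?_
  exact isClosed_le (by fun_prop) (by fun_prop)

lemma isBounded_P₀ : Bornology.IsBounded P₀ := by
  rw [Metric.isBounded_iff_subset_closedBall (0 : EuclideanSpace ℝ (Fin 4))]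
  refine ⟨6, ?_⟩
  rintro p ⟨h0, h1, h2, h3, h4⟩
  rw [mem_closedBall_zero_iff, EuclideanSpace.norm_eq, Real.sqrt_le_iff]
  refine ⟨by norm_num, ?_⟩
  simp only [Fin.sum_univ_four, Real.norm_eq_abs, sq_abs]
  have b0 : p 0 ≤ 1 := by linarith
  have b1 : p 1 ≤ 1 := by linarith
  have b2 : p 2 ≤ 1 := by linarith
  have b3 : p 3 ≤ 3 := by linarith
  nlinarith

lemma interior_P₀ : (interior P₀).Nonempty := by
  refine ⟨!₂[1 / 8, 1 / 8, 1 / 8, 1 / 8], mem_interior.2
    ⟨{p | 0 < p 0} ∩ ({p | 0 < p 1} ∩ ({p | 0 < p 2} ∩ ({p | 0 < p 3} ∩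
      {p | p 3 < 3 * (1 - p 0 - p 1 - p 2)}))), ?_, ?_, ?_⟩⟩
  · rintro p ⟨h0, h1, h2, h3, h4⟩
    exact ⟨le_of_lt h0, le_of_lt h1, le_of_lt h2, le_of_lt h3, le_of_lt h4⟩
  · refine (isOpen_lt (by fun_prop) (by fun_prop)).inter ?_
    refine (isOpen_lt (by fun_prop) (by fun_prop)).inter ?_
    refine (isOpen_lt (by fun_prop) (by fun_prop)).inter ?_
    refine (isOpen_lt (by fun_prop) (by fun_prop)).inter ?_
    exact isOpen_lt (by fun_prop) (by fun_prop)
  · refine ⟨?_, ?_, ?_, ?_, ?_⟩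
    · simp
    · simp
    · simp
    · simp
    · simp only [Set.mem_ofPred_eq, Matrix.cons_val]
      norm_num

theorem isBall₀ : IsBall (squeezed 3 2 U₀) := by
  obtain ⟨h, -, h2, -⟩ := exists_homeomorph_image_interior_closure_frontier_eq_unitBall
    convex_P₀ interior_P₀ isBounded_P₀
  rw [isClosed_P₀.closure_eq] at h2
  exact ⟨4, ⟨homeo₀.trans ((h.image P₀).trans (Homeomorph.setCongr h2))⟩⟩

/-- **Main result.**  There are a shifted order ideal `U` in `m` variables, all of whose monomials of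
largest degree are divisible by `x_m`, and an integer `ℓ = d_max(U) - 1 < d_max(U)`, such that
`Δ_ℓ(U)` is a ball whose boundary is not a Kalai squeezed sphere. -/
theorem main_result : ∃ (m ℓ : ℕ) (U : Finset (Multiset ℕ)), IsShiftedOrderIdeal m U ∧
    ℓ < dmax U ∧ (ℓ + 1 = dmax U ∧ ∀ u ∈ U, u.card = dmax U → m ∈ u) ∧
    IsBall (squeezed m ℓ U) ∧ ¬ IsKalaiSqueezedSphere (boundary (squeezed m ℓ U)) := by
  refine ⟨3, 2, U₀, U₀_shifted, by rw [dmax_U₀]; norm_num, ⟨by rw [dmax_U₀], ?_⟩, isBall₀,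
    not_kalai₀⟩
  rw [dmax_U₀]
  decide

end Pool.Agent.Lib.MP_7f3eea_co
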